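import Mathlib
import Pool.Agent.MP_2b113a_an.H33.LieC

/-!
Compressions of automorphisms to the opposite parabolic subalgebra.
-/

namespace Pool.Agent.MP_2b113a_an.H32

open Pool.Agent.MP_2b113a_an.H33

section Lin

variable {V : Type} [AddCommGroup V] [Module ℚ V]

/-- A projection on `U` along `W`. -/
structure IsPr (p : Module.End ℚ V) (U W : Submodule ℚ V) : Prop where
  mem : ∀ x, p x ∈ U
  id : ∀ x ∈ U, p x = x
  zero : ∀ x, p x = 0 ↔ x ∈ W

theorem exists_isPr {U W : Submodule ℚ V} (h : IsCompl U W) : ∃ p, IsPr p U W :=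
  ⟨U.projection W h, ⟨Submodule.projection_apply_mem h,
    fun _ hx => Submodule.projection_apply_of_mem_left h hx,
    fun _ => Submodule.projection_apply_eq_zero_iff h⟩⟩

/-- The compression. -/
def cmp (p h : Module.End ℚ V) : Module.End ℚ V := p * h * p + (1 - p)

variable {p : Module.End ℚ V} {U W : Submodule ℚ V}

theorem IsPr.pp (hp : IsPr p U W) (x : V) : p (p x) = p x := hp.id _ (hp.mem x)

theorem IsPr.idem (hp : IsPr p U W) : p * p = p := LinearMap.ext hp.pp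

theorem IsPr.sub_mem (hp : IsPr p U W) (x : V) : x - p x ∈ W :=
  (hp.zero _).1 (by rw [map_sub, hp.pp, sub_self])

theorem IsPr.left (hp : IsPr p U W) {h : Module.End ℚ V} (hh : ∀ x ∈ W, h x ∈ W) :
    p * h * p = p * h := LinearMap.ext fun x => by
  have := (hp.zero _).2 (hh _ (hp.sub_mem x))
  rw [map_sub, map_sub, sub_eq_zero] at this
  exact this.symm

theorem IsPr.right (hp : IsPr p U W) {h : Module.End ℚ V} (hh : ∀ x ∈ U, h x ∈ U) :
    p * h * p = h * p := LinearMap.ext fun x => hp.id _ (hh _ (hp.mem x))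

theorem IsPr.cmp_mul (hp : IsPr p U W) {h : Module.End ℚ V} (hh : ∀ x ∈ W, h x ∈ W)
    (g : Module.End ℚ V) : cmp p (h * g) = cmp p h * cmp p g := by
  have h1 : ∀ x, p (h (p x)) = p (h x) := LinearMap.congr_fun (hp.left hh)
  ext x
  simp [cmp, hp.pp, h1]

theorem det_one_add [Module.Finite ℚ V] {n : Module.End ℚ V} (h : IsNilpotent n) :
    LinearMap.det (1 + n) = 1 := by
  have h1 := LinearMap.eval_charpoly (-n) 1
  rw [h.neg.charpoly_eq_X_pow_finrank] at h1
  simpa using h1.symm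

theorem IsPr.det_cmp [Module.Finite ℚ V] (hp : IsPr p U W) {h : Module.End ℚ V}
    (hn : IsNilpotent (h - 1)) (hh : (∀ x ∈ W, h x ∈ W) ∨ ∀ x ∈ U, h x ∈ U) :
    LinearMap.det (cmp p h) = 1 := by
  have e : cmp p h = 1 + p * (h - 1) * p := by
    rw [cmp, mul_sub, sub_mul, mul_one, hp.idem]
    abel
  rw [e]
  refine det_one_add ?_
  obtain ⟨N, hN⟩ := hn
  refine ⟨N + 1, ?_⟩
  rcases hh with hh | hh
  · have h1 : p * (h - 1) * p = p * (h - 1) :=
      hp.left fun x hx => by simpa using W.sub_mem (hh x hx) hx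
    have key : ∀ j, (p * (h - 1)) ^ (j + 1) = p * (h - 1) ^ (j + 1) := fun j => by
      induction j with
      | zero => simp
      | succ j ih =>
        rw [pow_succ', ih, ← mul_assoc, h1, mul_assoc, ← pow_succ']
    rw [h1, key, pow_succ, hN, zero_mul, mul_zero]
  · have h1 : p * (h - 1) * p = (h - 1) * p :=
      hp.right fun x hx => by simpa using U.sub_mem (hh x hx) hx
    have key : ∀ j, ((h - 1) * p) ^ (j + 1) = (h - 1) ^ (j + 1) * p := fun j => by
      induction j with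
      | zero => simp
      | succ j ih =>
        rw [pow_succ, ih, mul_assoc, ← mul_assoc p, h1, ← mul_assoc, ← pow_succ]
    rw [h1, key, pow_succ, hN, zero_mul, zero_mul]

theorem IsPr.solve (hp : IsPr p U W) {h : Module.End ℚ V} {x v : V} (hv : v ∈ U)
    (e : cmp p h x = v) : x ∈ U ∧ h x - v ∈ W := by
  have e1 : p (h (p x)) + (x - p x) = v := e
  have e2 : p (h (p x)) = v := by
    have := congrArg p e1
    rwa [map_add, map_sub, hp.pp, hp.pp, sub_self, add_zero, hp.id v hv] at this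
  rw [e2, add_eq_left, sub_eq_zero] at e1
  refine ⟨e1 ▸ hp.mem x, (hp.zero _).1 ?_⟩
  rw [map_sub, hp.id v hv, e1, e2, sub_self]

theorem IsPr.eq_zero (hp : IsPr p U W) {h : Module.End ℚ V} (hi : Function.Injective (cmp p h))
    {x : V} (hx : x ∈ U) (hh : h x ∈ W) : x = 0 := by
  refine hi ?_
  show p (h (p x)) + (x - p x) = _
  rw [hp.id x hx, (hp.zero _).2 hh, sub_self, add_zero, map_zero]

end Lin

variable {L : Type} [LieRing L] [LieAlgebra ℚ L]

theorem nil_ex_sub_one {x : L} (hx : Nil x) : IsNilpotent (ex x - 1) :=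
  IsNilpotent.isNilpotent_exp_sub_one hx

theorem prod_stable (W : Submodule ℚ L) (v : L) : ∀ l : List L,
    (∀ z ∈ l, Nil z ∧ (∀ y ∈ W, ⁅z, y⁆ ∈ W) ∧ ⁅z, v⁆ ∈ W) →
    W.map (l.map ex).prod = W ∧ (l.map ex).prod v - v ∈ W
  | [], _ => by simp [Module.End.one_eq_id]
  | z :: l, hl => by
    obtain ⟨h1, h2, h3⟩ := hl z List.mem_cons_self
    obtain ⟨h4, h5⟩ := prod_stable W v l fun w hw => hl w (List.mem_cons_of_mem _ hw)
    rw [List.map_cons, List.prod_cons]
    refine ⟨by rw [Module.End.mul_eq_comp, Submodule.map_comp, h4, map_ex h1 h2], ?_⟩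
    have := add_mem (ex_mem h2 h5) (ex_sub_mem h1 h2 h3)
    rwa [map_sub, sub_add_sub_cancel] at this

variable [Module.Finite ℚ L]

/-- An automorphism with invertible compression can be moved into the opposite parabolic. -/
theorem move (ht : TRStmt) {τ : Tor L} (π : Pair τ) {p h : Module.End ℚ L}
    (hp : IsPr p (par (-(π.s₂ : L))) (pos (π.s₂ : L))) (hh : IsAut h)
    (hb : Function.Bijective (cmp p h)) :
    (∀ s, cmp p h s = π.s₁ → s ∈ par (-(π.s₂ : L)) ∧ h s - π.s₁ ∈ pos (π.s₁ : L)) ∧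
      ∀ s ∈ par (-(π.s₂ : L)), h s - π.s₁ ∈ pos (π.s₁ : L) → Adm π s := by
  have hσ := τ.diag' π.s₂
  obtain ⟨l, hC, hsp, hl⟩ := τ.exists_cflag π.s₂ (Module.finBasis ℚ L)
  have h2 : (π.s₂ : L) ∈ par (-(π.s₂ : L)) := mem_par le_rfl (mem_eig_zero.2 (by simp))
  have h1 : (π.s₁ : L) ∈ par (-(π.s₂ : L)) :=
    mem_par le_rfl (mem_eig_zero.2 (by simp [τ.comm _ π.s₂.2 _ π.s₁.2]))
  obtain ⟨t, et⟩ := hb.2 π.s₂
  obtain ⟨ht1, ht2⟩ := hp.solve h2 et
  obtain ⟨l', h3, h4⟩ := (ht L _ hσ l hC fun z hz => by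
    obtain ⟨-, β, h5, h6⟩ := hl z hz
    exact ⟨_, h5, τ.wt_le_eig β π.s₂ h6⟩).1 _ (hsp ▸ ht2)
  rw [add_sub_cancel] at h4
  have hl' : ∀ z ∈ l', ∃ β, 0 < β π.s₂ ∧ z ∈ τ.wt β := by
    intro z hz
    obtain ⟨w, hw, c, rfl⟩ : ∃ w ∈ l, ∃ c : ℚ, z = c • w := by
      obtain ⟨i, hi, rfl⟩ := List.getElem_of_mem hz
      exact ⟨l[i]'(h3.length_eq ▸ hi), List.getElem_mem _, h3.get hi (h3.length_eq ▸ hi)⟩
    obtain ⟨-, β, h5, h6⟩ := hl w hw
    exact ⟨β, h5, Submodule.smul_mem _ _ h6⟩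
  have hlp : ∀ z ∈ l', z ∈ pos (π.s₂ : L) := fun z hz => by
    obtain ⟨β, h5, h6⟩ := hl' z hz
    exact mem_pos h5 (τ.wt_le_eig β π.s₂ h6)
  have hn : ∀ z ∈ l', Nil z := fun z hz => hσ.nil_of_mem_pos (hlp z hz)
  have hu := isAut_prod_ex hn
  obtain ⟨a1, a2⟩ := prod_stable (pos (π.s₂ : L)) π.s₁ l' fun z hz =>
    ⟨hn z hz, fun y hy => lie_mem_pos (hlp z hz) hy, lie_pos_par (hlp z hz)
      (mem_par le_rfl (mem_eig_zero.2 (τ.comm _ π.s₂.2 _ π.s₁.2)))⟩
  obtain ⟨b1, b2⟩ := prod_stable (pos (π.s₁ : L)) π.s₁ l' fun z hz => by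
    refine ⟨hn z hz, ?_⟩
    by_cases h0 : z = 0
    · simp [h0]
    obtain ⟨β, h5, h6⟩ := hl' z hz
    have h7 := π.compat β fun h => h0 (by simpa [h] using h6)
    have h8 : 0 ≤ β π.s₁ := le_of_mul_le_mul_right (by simpa using h7) h5
    have h9 := τ.wt_le_eig β π.s₁ h6
    refine ⟨fun y hy => lie_par_pos (mem_par h8 h9) hy, ?_⟩
    rw [← lie_skew, mem_eig.1 h9]
    rcases eq_or_lt_of_le h8 with h | h
    · simp [← h]
    · exact neg_mem (Submodule.smul_mem _ _ (mem_pos h h9))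
  set u := (l'.map ex).prod
  obtain ⟨u', hu', e1, e2⟩ := hu.exists_inv
  have e1' : ∀ x, u (u' x) = x := LinearMap.congr_fun e1
  have e2' : ∀ x, u' (u x) = x := LinearMap.congr_fun e2
  have hk := hu'.mul hh
  have hle : (par (-(π.s₂ : L))).map (u' * h) ≤ par (-(π.s₂ : L)) := by
    refine hσ.le_of_stable ?_ ?_
    · rintro _ ⟨w, hw, rfl⟩
      refine ⟨⁅t, w⁆, lie_mem_par ht1 hw, ?_⟩
      rw [hk.lie, Module.End.mul_apply, ← h4, e2']
    · rintro c _ ⟨w, hw, rfl⟩ hc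
      rcases le_or_gt c 0 with h0 | h0
      · exact mem_par (neg_nonneg.2 h0) (by rwa [eig_neg, neg_neg])
      · have h5 : u ((u' * h) w) ∈ pos (π.s₂ : L) := a1.le ⟨_, mem_pos h0 hc, rfl⟩
        rw [Module.End.mul_apply, e1'] at h5
        rw [hp.eq_zero hb.1 hw h5, map_zero]
        exact zero_mem _
  have heq : (par (-(π.s₂ : L))).map (u' * h) = par (-(π.s₂ : L)) :=
    Submodule.eq_of_le_of_finrank_eq hle
      (LinearEquiv.finrank_map_eq (LinearEquiv.ofBijective (u' * h) hk.bij) _)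
  refine ⟨fun s es => ?_, fun s hs hs' => ⟨hs, u' * h, hk, heq, ?_⟩⟩
  · obtain ⟨hs1, hs2⟩ := hp.solve h1 es
    refine ⟨hs1, ?_⟩
    have h5 : (u' * h) s - π.s₁ ∈ par (-(π.s₂ : L)) := sub_mem (hle ⟨s, hs1, rfl⟩) h1
    have h6 : (u' * h) s - π.s₁ ∈ pos (π.s₂ : L) := by
      rw [← hu.apply_mem_map, a1, map_sub, Module.End.mul_apply, e1']
      have := sub_mem hs2 a2
      rwa [sub_sub_sub_cancel_right] at this
    have h7 := hp.id _ h5
    rw [(hp.zero _).2 h6, eq_comm, sub_eq_zero, Module.End.mul_apply] at h7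
    rw [← e1' (h s), h7]
    exact b2
  · rw [← hu.apply_mem_map, b1, map_sub, Module.End.mul_apply, e1']
    have := sub_mem hs' b2
    rwa [sub_sub_sub_cancel_right] at this

/-! ### Integral matrices -/

section Mat

omit [Module.Finite ℚ L]

variable {n : ℕ} (b : Module.Basis (Fin n) ℚ L)

/-- The integral matrix of an endomorphism that preserves the lattice. -/
noncomputable def im (f : Module.End ℚ L) : Matrix (Fin n) (Fin n) ℤ :=
  Matrix.of fun i j => (b.repr (f (b j)) i).num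

theorem basis_mem_lat (j : Fin n) : b j ∈ lat b := Submodule.subset_span ⟨j, rfl⟩

theorem im_cast {f : Module.End ℚ L} (hf : ∀ j, f (b j) ∈ lat b) (i j : Fin n) :
    (im b f i j : ℚ) = b.repr (f (b j)) i := by
  obtain ⟨z, hz⟩ := mem_lat.1 (hf j) i
  simp [im, hz]

theorem im_map {f : Module.End ℚ L} (hf : ∀ j, f (b j) ∈ lat b) :
    (Int.castRingHom ℚ).mapMatrix (im b f) = LinearMap.toMatrix b b f := by
  ext i j
  rw [LinearMap.toMatrix_apply, ← im_cast b hf]
  rfl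

theorem mapMatrix_inj : Function.Injective
    ((Int.castRingHom ℚ).mapMatrix : Matrix (Fin n) (Fin n) ℤ → Matrix (Fin n) (Fin n) ℚ) :=
  fun _ _ h => Matrix.ext fun i j => Int.cast_injective (α := ℚ) (congrFun (congrFun h i) j)

theorem det_cast {M : Matrix (Fin n) (Fin n) ℤ} {f : Module.End ℚ L}
    (h : (Int.castRingHom ℚ).mapMatrix M = LinearMap.toMatrix b b f) :
    (M.det : ℚ) = LinearMap.det f := by
  rw [← LinearMap.det_toMatrix b, ← h, ← RingHom.map_det]
  rfl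

theorem cramer {M : Matrix (Fin n) (Fin n) ℤ} {f : Module.End ℚ L}
    (h : (Int.castRingHom ℚ).mapMatrix M = LinearMap.toMatrix b b f) {x : L} (hx : f x ∈ lat b) :
    (M.det : ℚ) • x ∈ lat b := by
  choose c hc using mem_lat.1 hx
  refine mem_lat.2 fun i => ⟨M.adjugate.mulVec c i, ?_⟩
  have h1 := LinearMap.toMatrix_mulVec_repr b b f x
  have h2 := congrArg (((Int.castRingHom ℚ).mapMatrix M.adjugate).mulVec) h1
  rw [← h, Matrix.mulVec_mulVec, ← map_mul, Matrix.adjugate_mul] at h2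
  have h3 := congrFun h2 i
  simp only [Matrix.mulVec, dotProduct, RingHom.mapMatrix_apply, Matrix.map_apply,
    Matrix.smul_apply, Matrix.one_apply, hc] at h3
  simp only [Matrix.mulVec, dotProduct, map_smul, Finsupp.smul_apply, smul_eq_mul,
    Int.cast_sum, Int.cast_mul]
  simpa using h3

end Mat

end Pool.Agent.MP_2b113a_an.H32
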