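import Mathlib
import Pool.Agent.MP_2b113a_an.H32.GlueA

/-!
Moving conjugates of the opposite parabolic subalgebra by boundedly many letters.
-/

namespace Pool.Agent.MP_2b113a_an.H32

open Pool.Agent.MP_2b113a_an.H33 Polynomial

variable {L : Type} [LieRing L] [LieAlgebra ℚ L] {Γ : Type} [Group Γ]

theorem act_basis (A : AG L Γ) (g : Γ) (j : Fin A.n) : A.act g (A.b j) ∈ lat A.b :=
  A.act_mem g _ (basis_mem_lat A.b j)

/-- The integral matrix representation. -/
noncomputable def mat (A : AG L Γ) : Γ →* Matrix (Fin A.n) (Fin A.n) ℤ where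
  toFun g := im A.b (A.act g)
  map_one' := mapMatrix_inj (by rw [im_map _ (act_basis A 1), map_one, LinearMap.toMatrix_one, map_one])
  map_mul' g h := mapMatrix_inj (by
    rw [map_mul (Int.castRingHom ℚ).mapMatrix, im_map _ (act_basis A _), im_map _ (act_basis A _),
      im_map _ (act_basis A _), map_mul, LinearMap.toMatrix_mul])

theorem mat_map (A : AG L Γ) (g : Γ) :
    (Int.castRingHom ℚ).mapMatrix (mat A g) = LinearMap.toMatrix A.b A.b (A.act g) :=
  im_map _ (act_basis A g)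

theorem mat_cast (A : AG L Γ) (g : Γ) (i j : Fin A.n) :
    (mat A g i j : ℚ) = A.b.repr (A.act g (A.b j)) i := im_cast _ (act_basis A g) i j

theorem isAut_act (A : AG L Γ) (g : Γ) : IsAut (A.act g) :=
  isAut_of_inv (g' := A.act g⁻¹) (by rw [← map_mul, mul_inv_cancel, map_one])
    (by rw [← map_mul, inv_mul_cancel, map_one]) (A.act_lie g)

theorem exists_poly (A : AG L Γ) {z : L} (hz : z ∈ lat A.b) (hn : Nil z) :
    ∃ P : Matrix (Fin A.n) (Fin A.n) ℤ[X], ∀ (t : ℤ) i j,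
      mat A (A.E ((t : ℚ) • z)) i j = (P i j).eval t := by
  obtain ⟨N, hN⟩ := id hn
  refine ⟨Matrix.of fun i j => ∑ m ∈ Finset.range N,
    monomial m (im A.b ((m.factorial : ℚ)⁻¹ • ad z ^ m) i j), fun t i j => ?_⟩
  apply Int.cast_injective (α := ℚ)
  rw [mat_cast, A.act_E _ (lat_int_smul hz t) (hn.smul _),
    ex_smul_apply hn (N := N) (by rw [hN]; rfl)]
  simp only [Matrix.of_apply, eval_finsetSum, eval_monomial, Int.cast_sum, Int.cast_mul,
    Int.cast_pow, map_sum, Finsupp.coe_finsetSum, Finset.sum_apply]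
  refine Finset.sum_congr rfl fun m _ => ?_
  rw [im_cast _ fun j => A.div_mem z hz hn _ (basis_mem_lat A.b j) m, map_smul,
    Finsupp.smul_apply, smul_eq_mul, mul_comm]
  rfl

theorem exists_detpoly {n : ℕ} (B C D : Matrix (Fin n) (Fin n) ℤ) :
    ∃ p : MvPolynomial (Fin n × Fin n) ℤ, ∀ M : Matrix (Fin n) (Fin n) ℤ,
      (B * M * C + D).det = MvPolynomial.eval (fun ij => M ij.1 ij.2) p := by
  refine ⟨(MvPolynomial.C.mapMatrix B * Matrix.of (fun i j => MvPolynomial.X (i, j)) *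
    MvPolynomial.C.mapMatrix C + MvPolynomial.C.mapMatrix D).det, fun M => ?_⟩
  rw [RingHom.map_det, map_add, map_mul, map_mul]
  congr 2
  · congr 1
    · congr 1
      · ext i j; simp
      · ext i j; simp
    · ext i j; simp
  · ext i j; simp

theorem glue (ha : ArithStmt) (ht : TRStmt) : GlueStmt := by
  classical
  intro L _ _ _ _ τ π Γ _ A
  have hσ := τ.diag' π.s₂
  obtain ⟨p, hp⟩ := exists_isPr hσ.isCompl_pos.symm
  obtain ⟨c0, hc0, hY⟩ := exists_smul_mem_lat A.b π.Y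
  obtain ⟨d, hd, hdp⟩ := exists_smul_mem_lat_finite A.b (Set.finite_range fun j => p (A.b j))
  obtain ⟨D1, hD1, hD1s⟩ := exists_smul_mem_lat A.b (π.s₁ : L)
  obtain ⟨X₀, hX, hXs⟩ := exists_list_span
    {x | x ∈ lat A.b ∧ ∃ β, β ≠ 0 ∧ 0 ≤ β π.s₂ ∧ x ∈ τ.wt β}
  have hα : -π.α ≠ 0 := fun h => by
    have := π.α₂
    rw [neg_eq_zero.1 h] at this
    simp at this
  have hYn : Nil π.Y := τ.nil_of_mem_wt hα π.Y_mem
  have hY1 : π.Y ∈ eig (π.s₁ : L) 0 := by simpa [π.α₁] using τ.wt_le_eig _ π.s₁ π.Y_mem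
  have hY2 : π.Y ∈ par (-(π.s₂ : L)) :=
    mem_par π.α₂.le (by
      have := τ.wt_le_eig (-π.α) π.s₂ π.Y_mem
      rwa [LinearMap.neg_apply, ← eig_neg] at this)
  let a : Fin 3 → ℚ := fun i => ((i : ℕ) : ℚ) * c0
  have haY : ∀ i, a i • π.Y ∈ lat A.b := fun i => by
    simp only [a, mul_smul]
    exact lat_nat_smul hY _
  have haY' : ∀ i, (-a i) • π.Y ∈ lat A.b := fun i => by rw [neg_smul]; exact neg_mem (haY i)
  let κ := Fin 3 × {x // x ∈ X₀}
  let z : κ → L := fun k => ex ((-a k.1) • π.Y) k.2.1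
  have hxn : ∀ x : {x // x ∈ X₀}, Nil x.1 := fun x => by
    obtain ⟨-, β, h1, -, h2⟩ := hX x.1 x.2
    exact τ.nil_of_mem_wt h1 h2
  have hzl : ∀ k, z k ∈ lat A.b := fun k => by
    have := A.act_mem (A.E ((-a k.1) • π.Y)) _ (hX _ k.2.2).1
    rwa [A.act_E _ (haY' _) (hYn.smul _)] at this
  have hzn : ∀ k, Nil (z k) := fun k => (hYn.smul _).isAut_ex.nil (hxn k.2)
  let e : κ → ℤ → Γ := fun k t => A.E ((t : ℚ) • z k)
  choose P hP using fun k => exists_poly A (hzl k) (hzn k)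
  let Q : Matrix (Fin A.n) (Fin A.n) ℤ := im A.b ((d : ℚ) • p)
  have hQ : (Int.castRingHom ℚ).mapMatrix Q = LinearMap.toMatrix A.b A.b ((d : ℚ) • p) :=
    im_map _ fun j => hdp _ ⟨j, rfl⟩
  let M : Fin 3 → Γ → Matrix (Fin A.n) (Fin A.n) ℤ := fun i g =>
    Q * mat A (A.E (a i • π.Y)) * mat A g * Q + ((d : ℤ) ^ 2 • 1 - (d : ℤ) • Q)
  let h : Fin 3 → Γ → Module.End ℚ L := fun i g => ex (a i • π.Y) * A.act g
  have hM : ∀ i g, (Int.castRingHom ℚ).mapMatrix (M i g) =
      LinearMap.toMatrix A.b A.b ((d : ℚ) ^ 2 • cmp p (h i g)) := fun i g => by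
    simp only [M, map_add, map_mul, map_sub, map_zsmul, map_one, hQ, mat_map]
    rw [A.act_E _ (haY i) (hYn.smul _), ← LinearMap.toMatrix_mul, ← LinearMap.toMatrix_mul,
      ← LinearMap.toMatrix_mul, ← LinearMap.toMatrix_one A.b, ← map_zsmul, ← map_zsmul, ← map_sub,
      ← map_add]
    congr 1
    simp only [cmp, h, smul_mul_assoc, mul_smul_comm, mul_assoc, ← Int.cast_smul_eq_zsmul ℚ]
    push_cast
    module
  have hdet : ∀ i g, ((M i g).det : ℚ) =
      ((d : ℚ) ^ 2) ^ Module.finrank ℚ L * LinearMap.det (cmp p (h i g)) := fun i g => by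
    rw [det_cast A.b (hM i g), LinearMap.det_smul]
  have hd' : (d : ℚ) ≠ 0 := by exact_mod_cast hd.ne'
  choose pol hpol using fun i => exists_detpoly (Q * mat A (A.E (a i • π.Y))) Q
    ((d : ℤ) ^ 2 • 1 - (d : ℤ) • Q)
  obtain ⟨N, hN⟩ := ha Γ A.n (mat A) κ (Fin 3) e P pol (fun i g => (M i g).det)
    (fun k s t => by
      simp only [e]
      rw [Int.cast_add, add_smul, A.E_add _ (lat_int_smul (hzl k) s) _ (lat_int_smul (hzl k) t)
        ((hzn k).smul _) ((hzn k).smul _) (by simp)])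
    hP (fun i g => hpol i _)
    (fun i h0 => by
      have h1 := hdet i 1
      rw [h0, hp.det_cmp (by simpa [h] using nil_ex_sub_one (hYn.smul _)) (Or.inr fun x hx => by
        simpa [h] using ex_mem (fun y hy => lie_mem_par (Submodule.smul_mem _ _ hY2) hy) hx)] at h1
      rw [mul_one, Int.cast_zero] at h1
      exact pow_ne_zero _ (pow_ne_zero _ hd') h1.symm)
    (fun k => ⟨k.1, fun t g => by
      apply Int.cast_injective (α := ℚ)
      obtain ⟨-, β, h1, h2, h3⟩ := hX _ k.2.2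
      have h4 : (t : ℚ) • k.2.1 ∈ par (π.s₂ : L) :=
        Submodule.smul_mem _ _ (mem_par h2 (τ.wt_le_eig β π.s₂ h3))
      have h5 : ∀ x ∈ pos (π.s₂ : L), ex ((t : ℚ) • k.2.1) x ∈ pos (π.s₂ : L) := fun x hx =>
        ex_mem (fun y hy => lie_par_pos h4 hy) hx
      have h6 : h k.1 (e k t * g) = ex ((t : ℚ) • k.2.1) * h k.1 g := by
        simp only [h, e]
        rw [map_mul, A.act_E _ (lat_int_smul (hzl k) t) ((hzn k).smul _), ← mul_assoc,
          (hYn.smul _).isAut_ex.mul_ex ((hzn k).smul _), map_smul, mul_assoc]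
        simp only [z]
        rw [neg_smul, ex_ex_neg (hYn.smul _)]
      rw [hdet, hdet, h6, hp.cmp_mul h5, map_mul,
        hp.det_cmp (nil_ex_sub_one ((hxn k.2).smul _)) (Or.inl h5), one_mul]⟩)
    (fun f hf g => by
      simp only [mat_cast] at hf ⊢
      refine A.dens (Set.range z) ?_ ?_ f ?_ g
      · rintro _ ⟨k, rfl⟩
        exact ⟨hzl k, hzn k⟩
      · refine π.gen c0 (by exact_mod_cast hc0.ne') _ fun β h1 h2 x hx i => ?_
        have h3 : x ∈ sp X₀ := by
          rw [hXs]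
          refine Submodule.span_mono ?_ (le_span_inter_lat A.b _ hx)
          exact fun y hy => ⟨hy.1, β, h1, h2, hy.2⟩
        have h4 : sp X₀ ≤ (LieSubalgebra.lieSpan ℚ L (Set.range z)).toSubmodule.comap
            (ex ((-a i) • π.Y)) :=
          sp_le.2 fun y hy => LieSubalgebra.subset_lieSpan ⟨(i, ⟨y, hy⟩), rfl⟩
        exact h4 h3
      · have : A.E '' Set.range z = Set.range fun k => e k 1 := by
          rw [← Set.range_comp]
          simp [e, Function.comp_def]
        rwa [this])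
  refine ⟨Finset.univ.image z, N, ?_, fun q hq => ?_⟩
  · intro y hy
    obtain ⟨k, -, rfl⟩ := Finset.mem_image.1 hy
    obtain ⟨-, β, h1, -, h3⟩ := hX _ k.2.2
    exact ⟨hzl k, _, β, h1, _, h3, rfl⟩
  obtain ⟨D, hD, hw⟩ := hN q hq
  refine ⟨D1 * D, mul_pos hD1 hD, fun g => ?_⟩
  obtain ⟨w, hw1, hw2, m, hm⟩ := hw g
  have hE : ((w.map fun b => ((b.2 : ℚ) * q) • z b.1).map A.E) =
      w.map fun b => e b.1 (b.2 * q) := by
    rw [List.map_map]
    refine List.map_congr_left fun b _ => ?_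
    simp [e]
  set g' := (w.map fun b => e b.1 (b.2 * q)).prod * g
  have hb : ∀ i, Function.Bijective (cmp p (h i g')) := fun i => by
    have h1 := hdet i g'
    have h2 : LinearMap.det (cmp p (h i g')) ≠ 0 := fun h0 => hw2 i (by
      rw [h0, mul_zero] at h1
      exact_mod_cast h1)
    exact (Module.End.isUnit_iff _).1 (LinearMap.isUnit_iff_isUnit_det _ |>.2 h2.isUnit)
  have haut : ∀ i, IsAut (h i g') := fun i => (hYn.smul _).isAut_ex.mul (isAut_act A g')
  choose s hs using fun i => (hb i).2 π.s₁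
  have hs1 := fun i => (move ht π hp (haut i) (hb i)).1 _ (hs i)
  have hs2 : ∀ i, A.act g' (s i) - π.s₁ ∈ pos (π.s₁ : L) := fun i => by
    have h1 := ex_mem (x := -(a i • π.Y)) (fun y hy => lie_par_pos
      (neg_mem (Submodule.smul_mem _ _ (mem_par le_rfl hY1))) hy) (hs1 i).2
    rwa [map_sub, Module.End.mul_apply, ex_neg_ex (hYn.smul _),
      ex_apply_one (hYn.smul _).neg (by
        rw [neg_lie, lie_skew, lie_smul, mem_eig_zero.1 hY1, smul_zero])] at h1
  have hD' : (D : ℚ) ≠ 0 := by exact_mod_cast hD.ne'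
  have hm' : ∑ i, (m i : ℚ) * (M i g').det / D = 1 := by
    rw [← Finset.sum_div, div_eq_one_iff_eq hD']
    exact_mod_cast hm
  have hS1 : ∑ i, ((m i : ℚ) * (M i g').det / D) • s i ∈ par (-(π.s₂ : L)) :=
    Submodule.sum_mem _ fun i _ => Submodule.smul_mem _ _ (hs1 i).1
  have hS2 : A.act g' (∑ i, ((m i : ℚ) * (M i g').det / D) • s i) - π.s₁ ∈ pos (π.s₁ : L) := by
    have := Submodule.sum_mem _ fun i (_ : i ∈ Finset.univ) =>
      Submodule.smul_mem _ ((m i : ℚ) * (M i g').det / D) (hs2 i)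
    simp only [smul_sub, Finset.sum_sub_distrib] at this
    rw [← Finset.sum_smul, hm', one_smul] at this
    simpa only [map_sum, map_smul] using this
  refine ⟨w.map fun b => z b.1, w.map fun b => ((b.2 : ℚ) * q) • z b.1, _, by simpa using hw1,
    ?_, ?_, (move ht π hp (haut 0) (hb 0)).2 _ hS1 (by simpa [h, a, ex_zero] using hS2), ?_,
    by rw [hE]; exact hS2⟩
  · intro y hy
    obtain ⟨b, -, rfl⟩ := List.mem_map.1 hy
    exact Finset.mem_image_of_mem _ (Finset.mem_univ _)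
  · rw [Lev, List.forall₂_map_left_iff, List.forall₂_map_right_iff, List.forall₂_same]
    exact fun b _ => ⟨b.2, rfl⟩
  · rw [Finset.smul_sum]
    refine Submodule.sum_mem _ fun i _ => ?_
    have h1 := cramer A.b (hM i g') (x := (D1 : ℚ) • s i) (by
      rw [map_smul, LinearMap.smul_apply, hs, smul_comm]
      exact_mod_cast lat_nat_smul hD1s (d ^ 2))
    convert lat_int_smul h1 (m i) using 1
    simp only [smul_smul]
    congr 1
    push_cast
    field_simp

end Pool.Agent.MP_2b113a_an.H32
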