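import Mathlib
import Pool.Agent.MP_2b113a_an.H33.LieB

/-!
Transitivity and reduction along a flag of eigenvectors.
-/

namespace Pool.Agent.MP_2b113a_an.H32

open Pool.Agent.MP_2b113a_an.H33

variable {L : Type} [LieRing L] [LieAlgebra ℚ L] [Module.Finite ℚ L]

omit [Module.Finite ℚ L] in
theorem sp_le_pos {σ : L} {l : List L} (h : ∀ z ∈ l, ∃ d : ℚ, 0 < d ∧ z ∈ eig σ d) :
    sp l ≤ pos σ :=
  sp_le.2 fun z hz => by
    obtain ⟨d, hd, hz⟩ := h z hz
    exact mem_pos hd hz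

/-- One letter changes the first coordinate in a controlled way. -/
theorem step {σ z f : L} {l : List L} {d : ℚ} (hσ : Diag σ) (hC : CFlag (pos σ) (z :: l))
    (hd : 0 < d) (hz : z ∈ eig σ d) (hf : f ∈ pos σ) (t : ℚ) :
    ex (-(t • z)) (σ + f) - (σ + f) - (t * d) • z ∈ sp l := by
  have hzp : z ∈ pos σ := mem_pos hd hz
  have hx : -(t • z) ∈ pos σ := neg_mem (Submodule.smul_mem _ _ hzp)
  have hW : ∀ y ∈ sp l, ⁅-(t • z), y⁆ ∈ sp l := hC.2.lie_mem _ hx
  have h1 : ⁅-(t • z), σ + f⁆ = (t * d) • z + t • ⁅f, z⁆ := by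
    rw [lie_add, neg_lie, neg_lie, lie_skew, lie_skew, lie_smul, lie_smul, mem_eig.1 hz, mul_smul]
  have h2 : t • ⁅f, z⁆ ∈ sp l := Submodule.smul_mem _ _ (hC.1 f hf)
  have h3 := ex_sub_sub_mem (y := σ + f) (hσ.nil_of_mem_pos hx) hW (by
    rw [h1, lie_add]
    refine add_mem ?_ (hW _ h2)
    simp)
  rw [h1] at h3
  have := add_mem h3 h2
  convert this using 1
  abel

/-- Transitivity. -/
theorem trans {σ : L} (hσ : Diag σ) : ∀ l : List L, CFlag (pos σ) l →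
    (∀ z ∈ l, ∃ d : ℚ, 0 < d ∧ z ∈ eig σ d) → ∀ y ∈ sp l,
    ∃ l' : List L, List.Forall₂ (fun z' z => ∃ t : ℚ, z' = t • z) l' l ∧
      (l'.map ex).prod σ = σ + y
  | [], _, _, y, hy => by
    rw [sp_nil, Submodule.mem_bot] at hy
    exact ⟨[], List.Forall₂.nil, by simp [hy]⟩
  | z :: l, hC, hl, y, hy => by
    obtain ⟨d, hd, hz⟩ := hl z List.mem_cons_self
    have hyp := sp_le_pos hl hy
    obtain ⟨c, y0, hy0, rfl⟩ := mem_sp_cons.1 hy
    have h1 := step hσ hC hd hz hyp (-c / d)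
    obtain ⟨l', h2, h3⟩ := trans hσ l hC.2 (fun w hw => hl w (List.mem_cons_of_mem _ hw)) _
      (add_mem h1 hy0)
    refine ⟨(-c / d) • z :: l', List.Forall₂.cons ⟨_, rfl⟩ h2, ?_⟩
    have hn : Nil ((-c / d) • z) := (hσ.nil_of_mem_pos (mem_pos hd hz)).smul _
    rw [List.map_cons, List.prod_cons, Module.End.mul_apply, h3, div_mul_cancel₀ _ hd.ne']
    refine Eq.trans ?_ (ex_ex_neg hn (σ + (c • z + y0)))
    congr 1
    rw [neg_smul c z]
    abel

omit [Module.Finite ℚ L] in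
/-- A coordinate form with bounded denominators on the lattice. -/
theorem exists_form {n : ℕ} (b : Module.Basis (Fin n) ℚ L) {z : L} {W : Submodule ℚ L}
    (hz : z ∉ W) : ∃ (φ : L →ₗ[ℚ] ℚ) (M : ℕ), 0 < M ∧ φ z = 1 ∧ (∀ y ∈ W, φ y = 0) ∧
      ∀ x ∈ lat b, ∃ k : ℤ, (M : ℚ) * φ x = k := by
  obtain ⟨f, hf, hf0⟩ := Submodule.exists_dual_map_eq_bot_of_notMem hz inferInstance
  have hW : ∀ y ∈ W, f y = 0 := fun y hy => by
    have : f y ∈ W.map f := ⟨y, hy, rfl⟩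
    rwa [hf0, Submodule.mem_bot] at this
  let φ : L →ₗ[ℚ] ℚ := (f z)⁻¹ • f
  refine ⟨φ, ∏ i, (φ (b i)).den, Finset.prod_pos fun i _ => (φ (b i)).den_pos,
    by simp [φ, hf], fun y hy => by simp [φ, hW y hy], fun x hx => ?_⟩
  induction hx using Submodule.span_induction with
  | mem x hx =>
    obtain ⟨i, rfl⟩ := hx
    obtain ⟨k, hk⟩ : (φ (b i)).den ∣ ∏ i, (φ (b i)).den :=
      Finset.dvd_prod_of_mem _ (Finset.mem_univ i)
    refine ⟨k * (φ (b i)).num, ?_⟩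
    rw [hk]
    push_cast
    rw [mul_comm _ (k : ℚ), mul_assoc, mul_comm ((φ (b i)).den : ℚ), Rat.mul_den_eq_num]
  | zero => exact ⟨0, by simp⟩
  | add x y _ _ hx hy =>
    obtain ⟨k, hk⟩ := hx
    obtain ⟨k', hk'⟩ := hy
    exact ⟨k + k', by rw [map_add, mul_add, hk, hk', Int.cast_add]⟩
  | smul a x _ hx =>
    obtain ⟨k, hk⟩ := hx
    refine ⟨a * k, ?_⟩
    rw [map_zsmul, zsmul_eq_mul, mul_left_comm, hk, Int.cast_mul]

omit [Module.Finite ℚ L] in
theorem ex_mem_lat {Γ : Type} [Group Γ] (A : AG L Γ) {x y : L} (hx : x ∈ lat A.b) (hn : Nil x)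
    (hy : y ∈ lat A.b) : ex x y ∈ lat A.b := by
  rw [← A.act_E x hx hn]
  exact A.act_mem _ _ hy

omit [Module.Finite ℚ L] in
theorem lev_mem_lat {n : ℕ} {b : Module.Basis (Fin n) ℚ L} {z : L} (hz : z ∈ lat b) (t : ℤ)
    (q : ℕ) : ((t : ℚ) * q) • z ∈ lat b := by
  rw [mul_smul]
  exact lat_int_smul (lat_nat_smul hz q) t

theorem finite_reps (N : ℕ) (hN : 0 < N) (B : ℚ) :
    {c : ℚ | 0 ≤ c ∧ c < B ∧ ∃ k : ℤ, (N : ℚ) * c = k}.Finite := by
  have hN' : (0 : ℚ) < N := by exact_mod_cast hN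
  refine ((Set.finite_Icc (0 : ℤ) ⌈(N : ℚ) * B⌉).image fun k : ℤ => (k : ℚ) / N).subset ?_
  rintro c ⟨h0, h1, k, hk⟩
  refine ⟨k, ⟨?_, ?_⟩, ?_⟩
  · have : (0 : ℚ) ≤ k := hk ▸ mul_nonneg hN'.le h0
    exact_mod_cast this
  · have : (k : ℚ) ≤ ⌈(N : ℚ) * B⌉ := by
      rw [← hk]
      exact (mul_le_mul_of_nonneg_left h1.le hN'.le).trans (Int.le_ceil _)
    exact_mod_cast this
  · show (k : ℚ) / N = c
    rw [← hk, mul_div_cancel_left₀ _ hN'.ne']

/-- Reduction to finitely many representatives. -/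
theorem reduce {σ : L} (hσ : Diag σ) {Γ : Type} [Group Γ] (A : AG L Γ) {q D : ℕ} (hq : 0 < q)
    (hD : 0 < D) : ∀ l : List L, CFlag (pos σ) l →
    (∀ z ∈ l, ∃ d : ℚ, 0 < d ∧ z ∈ eig σ d) → (∀ z ∈ l, z ∈ lat A.b) → ∀ f0 ∈ pos σ,
    ∃ F : Set L, F.Finite ∧ (∀ f ∈ F, f ∈ sp l) ∧ ∀ y ∈ sp l,
      (D : ℚ) • (σ + (f0 + y)) ∈ lat A.b →
        ∃ f ∈ F, ∃ l', Lev q l' l ∧ (l'.map ex).prod (σ + (f0 + f)) = σ + (f0 + y)
  | [], _, _, _, f0, _ => by
    refine ⟨{0}, Set.finite_singleton _, by simp, fun y hy _ => ?_⟩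
    rw [sp_nil, Submodule.mem_bot] at hy
    exact ⟨0, rfl, [], List.Forall₂.nil, by simp [hy]⟩
  | z :: l, hC, hl, hb, f0, hf0 => by
    obtain ⟨d, hd, hz⟩ := hl z List.mem_cons_self
    have hzp : z ∈ pos σ := mem_pos hd hz
    have ih := reduce hσ A hq hD l hC.2 (fun w hw => hl w (List.mem_cons_of_mem _ hw))
      fun w hw => hb w (List.mem_cons_of_mem _ hw)
    by_cases hzl : z ∈ sp l
    · obtain ⟨F, hF, h1, h2⟩ := ih f0 hf0
      refine ⟨F, hF, fun f hf => sp_le_cons z l (h1 f hf), fun y hy hyD => ?_⟩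
      obtain ⟨c, y0, hy0, rfl⟩ := mem_sp_cons.1 hy
      obtain ⟨f, hf, l', h3, h4⟩ := h2 _ (add_mem (Submodule.smul_mem _ c hzl) hy0) hyD
      refine ⟨f, hf, 0 :: l', List.Forall₂.cons ⟨0, by simp⟩ h3, ?_⟩
      rw [List.map_cons, List.prod_cons, ex_zero, one_mul, h4]
    obtain ⟨φ, M, hM, hφ, hφ0, hφM⟩ := exists_form A.b hzl
    choose F hF h1 h2 using fun c : ℚ => ih (f0 + c • z) (add_mem hf0 (Submodule.smul_mem _ c hzp))
    have hq' : (0 : ℚ) < q := by exact_mod_cast hq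
    have hC0 := finite_reps (M * D * (φ (σ + f0)).den * d.den)
      (by have := (φ (σ + f0)).den_pos; have := d.den_pos; positivity) (q * d)
    refine ⟨_, hC0.biUnion fun c _ => (hF c).image fun f => c • z + f, ?_, fun y hy hyD => ?_⟩
    · intro f hf
      simp only [Set.mem_iUnion, Set.mem_image] at hf
      obtain ⟨c, -, f', hf', rfl⟩ := hf
      exact mem_sp_cons.2 ⟨c, f', h1 c f' hf', rfl⟩
    have hyp := sp_le_pos hl hy
    obtain ⟨c, y0, hy0, rfl⟩ := mem_sp_cons.1 hy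
    obtain ⟨k, hk⟩ := hφM _ hyD
    have hqd : 0 < (q : ℚ) * d := mul_pos hq' hd
    set t : ℤ := -⌊c / (q * d)⌋ with ht
    set c0 : ℚ := c + (t : ℚ) * q * d with hc0
    have hs := step hσ hC hd hz (add_mem hf0 hyp) ((t : ℚ) * q)
    have hn : Nil (((t : ℚ) * q) • z) := (hσ.nil_of_mem_pos hzp).smul _
    set w := ex (-(((t : ℚ) * q) • z)) (σ + (f0 + (c • z + y0))) with hw
    have e1 : w = σ + (f0 + c0 • z +
        (w - (σ + (f0 + (c • z + y0))) - ((t : ℚ) * q * d) • z + y0)) := by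
      rw [hc0, add_smul]
      abel
    obtain ⟨f, hf, l', h3, h4⟩ := h2 c0 _ (add_mem hs hy0) (by
      rw [← e1, hw, ← map_smul]
      exact ex_mem_lat A (neg_mem (lev_mem_lat (hb z List.mem_cons_self) t q)) hn.neg hyD)
    refine ⟨c0 • z + f, ?_, ((t : ℚ) * q) • z :: l', List.Forall₂.cons ⟨t, rfl⟩ h3, ?_⟩
    · simp only [Set.mem_iUnion, Set.mem_image]
      refine ⟨c0, ⟨?_, ?_, ?_⟩, f, hf, rfl⟩
      · have := Int.floor_le (c / (q * d))
        rw [le_div_iff₀ hqd] at this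
        rw [hc0, ht]
        push_cast
        linarith
      · have := Int.lt_floor_add_one (c / (q * d))
        rw [div_lt_iff₀ hqd] at this
        rw [hc0, ht]
        push_cast
        linarith
      · have e2 : φ ((D : ℚ) • (σ + (f0 + (c • z + y0)))) = D * (φ (σ + f0) + c) := by
          rw [← add_assoc, map_smul, map_add φ (σ + f0), map_add φ (c • z), map_smul, hφ,
            hφ0 y0 hy0]
          simp
        rw [e2] at hk
        refine ⟨k * (φ (σ + f0)).den * d.den - M * D * (φ (σ + f0)).num * d.den +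
          M * D * (φ (σ + f0)).den * t * q * d.num, ?_⟩
        push_cast
        rw [← hk, ← Rat.mul_den_eq_num d, ← Rat.mul_den_eq_num (φ (σ + f0)), hc0]
        ring
    · rw [List.map_cons, List.prod_cons, Module.End.mul_apply, ← add_assoc f0, h4, ← e1, hw,
        ex_ex_neg hn]

/-- Points that are congruent to the base point are reached from it. -/
theorem congr_reach {σ : L} (hσ : Diag σ) {Γ : Type} [Group Γ] (A : AG L Γ) {q : ℕ}
    (hq : 0 < q) : ∀ l : List L, CFlag (pos σ) l →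
    (∀ z ∈ l, ∃ d : ℚ, 0 < d ∧ z ∈ eig σ d) → (∀ z ∈ l, z ∈ lat A.b) →
    ∃ N : ℕ, 0 < N ∧ ∀ y ∈ sp l, y ∈ lat A.b →
      ∃ l', Lev q l' l ∧ (l'.map ex).prod σ = σ + (N : ℚ) • y
  | [], _, _, _ => by
    refine ⟨1, one_pos, fun y hy _ => ?_⟩
    rw [sp_nil, Submodule.mem_bot] at hy
    exact ⟨[], List.Forall₂.nil, by simp [hy]⟩
  | z :: l, hC, hl, hb => by
    obtain ⟨d, hd, hz⟩ := hl z List.mem_cons_self
    have hzp : z ∈ pos σ := mem_pos hd hz
    obtain ⟨N, hN, ih⟩ := congr_reach hσ A hq l hC.2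
      (fun w hw => hl w (List.mem_cons_of_mem _ hw)) fun w hw => hb w (List.mem_cons_of_mem _ hw)
    by_cases hzl : z ∈ sp l
    · refine ⟨N, hN, fun y hy hyl => ?_⟩
      obtain ⟨c, y0, hy0, rfl⟩ := mem_sp_cons.1 hy
      obtain ⟨l', h3, h4⟩ := ih _ (add_mem (Submodule.smul_mem _ c hzl) hy0) hyl
      refine ⟨0 :: l', List.Forall₂.cons ⟨0, by simp⟩ h3, ?_⟩
      rw [List.map_cons, List.prod_cons, ex_zero, one_mul, h4]
    obtain ⟨φ, M, hM, hφ, hφ0, hφM⟩ := exists_form A.b hzl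
    obtain ⟨a, ha⟩ : ∃ a : ℕ, d.num = a := Int.eq_ofNat_of_zero_le (Rat.num_pos.2 hd).le
    have ha0 : 0 < a := by have := Rat.num_pos.2 hd; omega
    have had : d * d.den = a := by rw [Rat.mul_den_eq_num, ha, Int.cast_natCast]
    refine ⟨N * (M * q * a), by positivity, fun y hy hyl => ?_⟩
    have hyp := sp_le_pos hl hy
    obtain ⟨k, hk⟩ := hφM _ hyl
    obtain ⟨c, y0, hy0, rfl⟩ := mem_sp_cons.1 hy
    rw [map_add, map_smul, hφ, hφ0 y0 hy0, smul_eq_mul, mul_one, add_zero] at hk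
    set t : ℤ := -(N * d.den * k) with ht
    have hn : Nil (((t : ℚ) * q) • z) := (hσ.nil_of_mem_pos hzp).smul _
    have hzb := hb z List.mem_cons_self
    have hN' : (N : ℚ) ≠ 0 := by exact_mod_cast hN.ne'
    have htd : (t : ℚ) * q * d = -(N * (M * q * a) * c) := by
      rw [ht]
      push_cast
      rw [← hk, ← had]
      ring
    have hs := step hσ hC hd hz
      (Submodule.smul_mem _ ((N * (M * q * a) : ℕ) : ℚ) hyp) ((t : ℚ) * q)
    have hs0 : ex (-(((t : ℚ) * q) • z)) σ = σ + ((t : ℚ) * q * d) • z := by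
      have h1 : ⁅-(((t : ℚ) * q) • z), σ⁆ = ((t : ℚ) * q * d) • z := by
        rw [neg_lie, lie_skew, lie_smul, mem_eig.1 hz, smul_smul]
      rw [ex_apply_two hn.neg (by rw [h1]; simp), h1]
    set y1 : L := ((M * q * a : ℕ) : ℚ) • ex (-(((t : ℚ) * q) • z)) (c • z + y0) -
      ((k * q * a : ℤ) : ℚ) • z with hy1
    have e1 : ex (-(((t : ℚ) * q) • z)) (σ + ((N * (M * q * a) : ℕ) : ℚ) • (c • z + y0)) =
        σ + (N : ℚ) • y1 := by
      rw [map_add, hs0, map_smul, hy1, htd]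
      push_cast
      rw [← hk]
      module
    have h5 : y1 ∈ sp l := by
      have h6 := add_mem hs (Submodule.smul_mem _ ((N * (M * q * a) : ℕ) : ℚ) hy0)
      rw [e1, htd] at h6
      have h7 := Submodule.smul_mem _ (N : ℚ)⁻¹ h6
      convert h7 using 1
      rw [eq_inv_smul_iff₀ hN']
      push_cast
      module
    obtain ⟨l', h3, h4⟩ := ih y1 h5 (sub_mem (lat_nat_smul
      (ex_mem_lat A (neg_mem (lev_mem_lat hzb t q)) hn.neg hyl) _) (lat_int_smul hzb _))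
    refine ⟨((t : ℚ) * q) • z :: l', List.Forall₂.cons ⟨t, rfl⟩ h3, ?_⟩
    rw [List.map_cons, List.prod_cons, Module.End.mul_apply, h4, ← e1, ex_ex_neg hn]

theorem prod_sub_mem {σ : L} (hσ : Diag σ) {c : ℚ} {x : L} (hx : x ∈ eig σ c) :
    ∀ l : List L, (∀ z ∈ l, z ∈ pos σ) → (l.map ex).prod x - x ∈ fil σ (c < ·)
  | [], _ => by simp
  | z :: l, hl => by
    have hz := hl z List.mem_cons_self
    have ih := prod_sub_mem hσ hx l fun w hw => hl w (List.mem_cons_of_mem _ hw)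
    have h1 : (l.map ex).prod x ∈ fil σ (c ≤ ·) := by
      have := add_mem (fil_mono (q := (c ≤ ·)) (fun _ h => le_of_lt h) ih)
        (eig_le_fil (p := (c ≤ ·)) le_rfl hx)
      rwa [sub_add_cancel] at this
    have h2 := ex_sub_mem (y := (l.map ex).prod x) (W := fil σ (c < ·)) (hσ.nil_of_mem_pos hz)
      (fun y hy => lie_mem_fil (p := (0 < ·)) (q := (c < ·))
        (fun a e ha he => by linarith) hz hy)
      (lie_mem_fil (p := (0 < ·)) (q := (c ≤ ·)) (fun a e ha he => by linarith) hz h1)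
    rw [List.map_cons, List.prod_cons, Module.End.mul_apply]
    have := add_mem h2 ih
    rwa [sub_add_sub_cancel] at this

/-- A unipotent element that fixes `σ` is trivial. -/
theorem prod_eq_one {σ : L} (hσ : Diag σ) {l : List L} (hl : ∀ z ∈ l, z ∈ pos σ)
    (h : (l.map ex).prod σ = σ) : (l.map ex).prod = 1 := by
  refine hσ.ext fun c x hx => ?_
  have hA := isAut_prod_ex fun z hz => hσ.nil_of_mem_pos (hl z hz)
  have h1 : (l.map ex).prod x ∈ eig σ c := by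
    have := hA.mem_eig_iff.2 hx
    rwa [h] at this
  have h2 := prj_eq_zero_of_mem_fil (prod_sub_mem hσ hx l hl) (c := c) (lt_irrefl c)
  rw [prj_self (sub_mem h1 hx)] at h2
  exact sub_eq_zero.1 h2

omit [Module.Finite ℚ L] in
theorem lev_mem {n : ℕ} {b : Module.Basis (Fin n) ℚ L} {W : Submodule ℚ L} {q : ℕ}
    {l' l : List L} (h : Lev q l' l) (hl : ∀ z ∈ l, z ∈ lat b ∧ z ∈ W) :
    ∀ z ∈ l', z ∈ lat b ∧ z ∈ W := by
  induction h with
  | nil => simp
  | @cons z' z l' l h _ ih =>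
    obtain ⟨t, rfl⟩ := h
    intro w hw
    rcases List.mem_cons.1 hw with rfl | hw
    · exact ⟨lev_mem_lat (hl z List.mem_cons_self).1 t q,
        W.smul_mem _ (hl z List.mem_cons_self).2⟩
    · exact ih (fun w hw => hl w (List.mem_cons_of_mem _ hw)) w hw

theorem tr : TRStmt := by
  intro L _ _ _ σ hσ l hC hl
  refine ⟨trans hσ l hC hl, fun Γ _ A hb q hq => ⟨fun D hD => ?_, fun hsp => ?_⟩⟩
  · obtain ⟨F, hF, h1, h2⟩ := reduce hσ A hq hD l hC hl hb 0 (zero_mem _)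
    refine ⟨hF.toFinset, fun f hf => h1 f (hF.mem_toFinset.1 hf), fun y hy hyD => ?_⟩
    obtain ⟨f, hf, l', h3, h4⟩ := h2 y hy (by rwa [zero_add])
    exact ⟨f, hF.mem_toFinset.2 hf, l', h3, by simpa only [zero_add] using h4⟩
  obtain ⟨N, hN, h⟩ := congr_reach hσ A hq l hC hl hb
  obtain ⟨D, hD, hDσ⟩ := exists_smul_mem_lat A.b σ
  refine ⟨N * D, mul_pos hN hD, fun x hx hxl => ?_⟩
  have hn := hσ.nil_of_mem_pos hx
  obtain ⟨K, hK⟩ := id hn
  have hN' : (N : ℚ) ≠ 0 := by exact_mod_cast hN.ne'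
  set y : L := ∑ i ∈ Finset.range K, (((N * D) ^ i : ℕ) : ℚ) •
    ((i + 1).factorial : ℚ)⁻¹ • (ad x ^ (i + 1)) ((D : ℚ) • σ) with hy
  have e1 : ex (((N * D : ℕ) : ℚ) • x) σ = σ + (N : ℚ) • y := by
    rw [ex_smul_apply hn (N := K + 1) (by rw [pow_succ', hK]; simp), Finset.sum_range_succ', hy,
      Finset.smul_sum, add_comm]
    congr 1
    · simp
    · refine Finset.sum_congr rfl fun i _ => ?_
      rw [map_smul]
      push_cast
      rw [pow_succ]
      module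
  have hxp : ((N * D : ℕ) : ℚ) • x ∈ pos σ := Submodule.smul_mem _ _ hx
  have hxn := hσ.nil_of_mem_pos hxp
  have hxb := lat_nat_smul hxl (N * D)
  have h1 : y ∈ sp l := by
    have h2 := ex_sub_mem (y := σ) (W := pos σ) hxn (fun w hw => lie_mem_pos hxp hw)
      (lie_pos_par hxp (self_mem_par σ))
    rw [e1, add_sub_cancel_left] at h2
    rw [hsp]
    exact (Submodule.smul_mem_iff _ hN').1 h2
  obtain ⟨l', h3, h4⟩ := h y h1 (Submodule.sum_mem _ fun i _ =>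
    lat_nat_smul (A.div_mem x hxl hn _ hDσ (i + 1)) _)
  refine ⟨l', h3, ?_⟩
  have h5 : ∀ z ∈ -(((N * D : ℕ) : ℚ) • x) :: l', z ∈ lat A.b ∧ z ∈ pos σ := by
    intro z hz
    rcases List.mem_cons.1 hz with rfl | hz
    · exact ⟨neg_mem hxb, neg_mem hxp⟩
    · exact lev_mem h3 (fun w hw => ⟨hb w hw, sp_le_pos hl (mem_sp hw)⟩) z hz
  have h6 := A.E_unip σ hσ _ h5 (prod_eq_one hσ (fun z hz => (h5 z hz).2) (by
    rw [List.map_cons, List.prod_cons, Module.End.mul_apply, h4, ← e1, ex_neg_ex hxn]))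
  have h7 : A.E 0 = 1 := by
    have := A.E_add 0 (zero_mem _) 0 (zero_mem _) nil_zero nil_zero (by simp)
    rw [add_zero] at this
    exact left_eq_mul.1 this
  have h8 := A.E_add _ hxb _ (neg_mem hxb) hxn hxn.neg (by simp)
  rw [add_neg_cancel, h7] at h8
  rw [List.map_cons, List.prod_cons] at h6
  rw [← mul_one (A.E _), ← h6, ← mul_assoc, ← h8, one_mul]

end Pool.Agent.MP_2b113a_an.H32
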